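import Mathlib
import Pool.Agent.Helper87.QG.Final

/-!
# QU: the uniform version: separated bad windows of length `T`
-/

set_option autoImplicit false

open Finset

namespace Pool.Agent.Helper87.QU

open Pool.Agent.Helper26.PE (la)
open Pool.Agent.Helper68.CO2 (lam)
open Pool.Agent.Helper87.QG (hit_rel dcount_finite dcount NH mem_NH nonhit sep Rich fin_window)

/-- separated bad windows of length `T` in `[N ^ 2, 4 N ^ 2]`: fewer than `R` -/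
theorem block_gen {N X W R b : ℕ} {H : ℕ → ℕ} {T E c C' : ℝ}
    (hchain : ∀ Hit : Set ℕ,
      (∀ w ∈ Hit, ∀ q : ℕ, 1 ≤ q → q ≤ 5 * X → la (w / q + 1) = la q * la (w + 1)) →
      2 ^ (b + 2) * Set.ncard {w : ℕ | X * W ≤ 2 * w ∧ w ≤ 20 * X * W ∧ w ∉ Hit} ≤ W → False)
    (hdcount : ∀ N : ℕ, 1 ≤ N → ∀ (K : Finset ℕ) (Z : ℕ → Finset ℕ) (E : ℝ),
      (∀ m ∈ K, ∀ z ∈ Z m, 1 ≤ z ∧ z ≤ 5 * N ^ 2) → (∀ m ∈ K, (#(Z m) : ℝ) ≤ E) →
      ({w : ℕ | ∃ m ∈ K, ∃ a : ℕ, 1 ≤ a ∧ m / a = w ∧ ∃ z ∈ Z m, a ∣ z}.ncard : ℝ) ≤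
        C' * (N : ℝ) ^ c * #K * E)
    (hN1 : 1 ≤ N) (hW1 : 1 ≤ W) (hR1 : 1 ≤ R) (h6 : 6 ≤ X * W) (hTN : T ≤ N)
    (h40 : 40 * (N : ℝ) ^ 2 ≤ W * T) (hNU : N ≤ X * W / 2)
    (hH : ∀ i < 6, 512 * (2 ^ i * (X * W / 2)) ^ 4 ≤ H i * N ^ 4)
    (hfin : 2 ^ (b + 2) * (∑ i ∈ range 6, 64 * ((2 ^ i * (X * W / 2) : ℕ) : ℝ) ^ 2 / N *
      (H i : ℝ) ^ 2 * (1 + Real.log (8 * H i * N : ℕ)) / R + C' * (N : ℝ) ^ c * R * E) ≤ W)
    (B : Finset ℕ) (hB : ∀ m ∈ B, N ^ 2 ≤ m ∧ m ≤ 4 * N ^ 2)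
    (hsep : ∀ m ∈ B, ∀ m' ∈ B, m ≠ m' → (N : ℤ) ≤ |(m : ℤ) - m'|)
    (hbad : ∀ m ∈ B, ∃ s : ℤˣ, ({z : ℕ | m < z ∧ (z : ℝ) ≤ (m : ℝ) + T ∧
      lam z ≠ s}.ncard : ℝ) ≤ E) : #B < R := by
  classical
  by_contra hcon
  have hRB : R ≤ #B := not_lt.1 hcon
  have hNR : (1 : ℝ) ≤ N := by exact_mod_cast hN1
  obtain ⟨K, hKB, hKc⟩ := Finset.exists_subset_card_eq hRB
  choose! s hs using hbad
  have hZfin : ∀ m : ℕ, {z : ℕ | m < z ∧ (z : ℝ) ≤ (m : ℝ) + T ∧ lam z ≠ s m}.Finite := by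
    intro m
    refine (Set.finite_Iic ⌊(m : ℝ) + T⌋₊).subset ?_
    rintro z ⟨_, h2, _⟩
    exact Nat.le_floor h2
  obtain ⟨Z, hZ⟩ : ∃ Z : ℕ → Finset ℕ, ∀ m, Z m = (hZfin m).toFinset := ⟨_, fun _ => rfl⟩
  have hmZ : ∀ m z : ℕ, z ∈ Z m ↔ (m < z ∧ (z : ℝ) ≤ (m : ℝ) + T ∧ lam z ≠ s m) := by
    intro m z
    rw [hZ, Set.Finite.mem_toFinset]
    rfl
  have hZ1 : ∀ m ∈ K, ∀ z ∈ Z m, 1 ≤ z ∧ z ≤ 5 * N ^ 2 := by
    intro m hm z hz
    rw [hmZ] at hz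
    obtain ⟨h1, h2, _⟩ := hz
    refine ⟨by omega, ?_⟩
    have h4 : (m : ℝ) ≤ 4 * (N : ℝ) ^ 2 := by exact_mod_cast (hB m (hKB hm)).2
    have h5 : (N : ℝ) ≤ N ^ 2 := by nlinarith
    have h6 : (z : ℝ) ≤ ((5 * N ^ 2 : ℕ) : ℝ) := by
      push_cast
      nlinarith
    exact_mod_cast h6
  have hZ2 : ∀ m ∈ K, (#(Z m) : ℝ) ≤ E := by
    intro m hm
    have h1 := hs m (hKB hm)
    rw [Set.ncard_eq_toFinset_card _ (hZfin m), ← hZ] at h1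
    exact h1
  obtain ⟨Hit, hHit⟩ : ∃ Hit : Set ℕ, Hit = {w : ℕ | X * W ≤ 2 * w ∧ ∃ m ∈ K, ∃ a : ℕ, 1 ≤ a ∧
      m / a = w ∧ ∀ z ∈ Z m, ¬ a ∣ z} := ⟨_, rfl⟩
  refine hchain Hit ?_ ?_
  · -- the relation
    intro w hw q hq1 hq2
    rw [hHit] at hw
    obtain ⟨hXw, m, hm, a, ha, hma, hd⟩ := hw
    refine hit_rel (T := T) (s := s m) (Z := (Z m : Set ℕ)) ?_ ha hma ?_ hq1 ?_
    · intro z h1 h2 h3
      by_contra h4
      exact h3 (mem_coe.2 ((hmZ m z).2 ⟨h1, h2, h4⟩))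
    · intro z hz
      exact hd z (mem_coe.1 hz)
    · have e3 : (m : ℝ) ≤ 4 * (N : ℝ) ^ 2 := by exact_mod_cast (hB m (hKB hm)).2
      have e1 : a * w ≤ m := by rw [← hma]; exact Nat.mul_div_le _ _
      have e2 : (a : ℝ) * w ≤ (m : ℝ) := by exact_mod_cast e1
      have e4 : (X : ℝ) * W ≤ 2 * w := by exact_mod_cast hXw
      have e5 : (q : ℝ) ≤ 5 * X := by exact_mod_cast hq2
      have haR : (0 : ℝ) ≤ a := Nat.cast_nonneg a
      have hWR : (0 : ℝ) < W := by exact_mod_cast hW1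
      have e6 : (a : ℝ) * (X * W) ≤ a * (2 * w) := mul_le_mul_of_nonneg_left e4 haR
      have e7 : 5 * X * a * W ≤ T * W := by nlinarith
      have e8 : 5 * X * a ≤ T := le_of_mul_le_mul_right e7 hWR
      have e9 : (q : ℝ) * a ≤ 5 * X * a := mul_le_mul_of_nonneg_right e5 haR
      linarith
  · -- the count
    obtain ⟨U, hU⟩ : ∃ U, U = X * W / 2 := ⟨_, rfl⟩
    rw [← hU] at hNU hH hfin
    obtain ⟨D, hD⟩ : ∃ D : Set ℕ, D = {w : ℕ | ∃ m ∈ K, ∃ a : ℕ, 1 ≤ a ∧ m / a = w ∧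
        ∃ z ∈ Z m, a ∣ z} := ⟨_, rfl⟩
    have hDfin : D.Finite := by
      rw [hD]
      exact dcount_finite K Z fun m hm z hz => (hZ1 m hm z hz).1
    have hDc : (D.ncard : ℝ) ≤ C' * (N : ℝ) ^ c * R * E := by
      rw [hD, ← hKc]
      exact hdcount N hN1 K Z _ hZ1 hZ2
    have hKne : K.Nonempty := by
      rw [← card_pos, hKc]
      omega
    have hKN : ∀ m ∈ K, N ^ 2 ≤ m ∧ m ≤ 4 * N ^ 2 := fun m hm => hB m (hKB hm)
    have hRR : (0 : ℝ) < R := by exact_mod_cast hR1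
    have hNH : ∀ i ∈ range 6, (#(NH K (2 ^ i * U)) : ℝ) ≤
        64 * ((2 ^ i * U : ℕ) : ℝ) ^ 2 / N * (H i : ℝ) ^ 2 *
        (1 + Real.log (8 * H i * N : ℕ)) / R := by
      intro i hi
      rw [mem_range] at hi
      rw [le_div_iff₀ hRR, ← hKc]
      refine nonhit N (2 ^ i * U) (H i) hN1 ?_ (hH i hi) K hKne hKN
        (fun m hm m' hm' => hsep m (hKB hm) m' (hKB hm'))
      exact hNU.trans (Nat.le_mul_of_pos_left _ (by positivity))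
    have hsub : {w : ℕ | X * W ≤ 2 * w ∧ w ≤ 20 * X * W ∧ w ∉ Hit} ⊆
        D ∪ (((range 6).biUnion fun i => NH K (2 ^ i * U) : Finset ℕ) : Set ℕ) := by
      rintro w ⟨h1, h2, h3⟩
      by_cases hw : w ∈ D
      · exact Or.inl hw
      · right
        have h4 : ∀ m ∈ K, ∀ a : ℕ, 1 ≤ a → m / a ≠ w := by
          intro m hm a ha hma
          apply h3
          rw [hHit]
          refine ⟨h1, m, hm, a, ha, hma, fun z hz hdz => hw ?_⟩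
          rw [hD]
          exact ⟨m, hm, a, ha, hma, z, hz, hdz⟩
        have h5 : U ≤ w := by
          rw [hU]
          omega
        have h6' : w < 64 * U := by
          have : 20 * X * W = 20 * (X * W) := by ring
          rw [this] at h2
          rw [hU]
          omega
        rw [mem_coe, mem_biUnion]
        have h7 : ∃ i < 6, 2 ^ i * U ≤ w ∧ w < 2 * (2 ^ i * U) := by
          by_cases g1 : w < 2 * U
          · exact ⟨0, by norm_num, by omega, by omega⟩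
          by_cases g2 : w < 4 * U
          · exact ⟨1, by norm_num, by omega, by omega⟩
          by_cases g3 : w < 8 * U
          · exact ⟨2, by norm_num, by omega, by omega⟩
          by_cases g4 : w < 16 * U
          · exact ⟨3, by norm_num, by omega, by omega⟩
          by_cases g5 : w < 32 * U
          · exact ⟨4, by norm_num, by omega, by omega⟩
          · exact ⟨5, by norm_num, by omega, by omega⟩
        obtain ⟨i, hi, h8, h9⟩ := h7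
        exact ⟨i, mem_range.2 hi, mem_NH.2 ⟨⟨h8, h9⟩, h4⟩⟩
    have hc1 : {w : ℕ | X * W ≤ 2 * w ∧ w ≤ 20 * X * W ∧ w ∉ Hit}.ncard ≤
        D.ncard + ∑ i ∈ range 6, #(NH K (2 ^ i * U)) := by
      refine (Set.ncard_le_ncard hsub (hDfin.union (finite_toSet _))).trans ?_
      refine (Set.ncard_union_le _ _).trans (add_le_add le_rfl ?_)
      rw [Set.ncard_coe_finset]
      exact card_biUnion_le
    have hc2 : (({w : ℕ | X * W ≤ 2 * w ∧ w ≤ 20 * X * W ∧ w ∉ Hit}.ncard : ℕ) : ℝ) ≤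
        ∑ i ∈ range 6, 64 * ((2 ^ i * U : ℕ) : ℝ) ^ 2 / N * (H i : ℝ) ^ 2 *
        (1 + Real.log (8 * H i * N : ℕ)) / R + C' * (N : ℝ) ^ c * R * E := by
      have e1 : (({w : ℕ | X * W ≤ 2 * w ∧ w ≤ 20 * X * W ∧ w ∉ Hit}.ncard : ℕ) : ℝ) ≤
          ((D.ncard + ∑ i ∈ range 6, #(NH K (2 ^ i * U)) : ℕ) : ℝ) := by exact_mod_cast hc1
      refine e1.trans ?_
      rw [Nat.cast_add, Nat.cast_sum, add_comm]
      exact add_le_add (sum_le_sum hNH) hDc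
    have hc3 : ((2 ^ (b + 2) * {w : ℕ | X * W ≤ 2 * w ∧ w ≤ 20 * X * W ∧ w ∉ Hit}.ncard : ℕ) : ℝ) ≤
        (W : ℝ) := by
      rw [Nat.cast_mul, Nat.cast_pow, Nat.cast_ofNat]
      exact (mul_le_mul_of_nonneg_left hc2 (by positivity)).trans hfin
    exact_mod_cast hc3

end Pool.Agent.Helper87.QU
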