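import Mathlib
import Pool.Agent.Helper87.QU.Block

/-!
# QU: the uniform version: one dyadic block
-/

set_option autoImplicit false

open Finset

namespace Pool.Agent.Helper87.QU

open Pool.Agent.Helper68.CO2 (lam)
open Pool.Agent.Helper87.QG (sep Rich fin_window)

theorem poor_sign {x : ℕ} {T L E t : ℝ} (hTL : T ≤ L) (htE : t ≤ E) (hr : ¬ Rich x L t) :
    ∃ s : ℤˣ, ({z : ℕ | x < z ∧ (z : ℝ) ≤ (x : ℝ) + T ∧ lam z ≠ s}.ncard : ℝ) ≤ E := by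
  unfold Rich at hr
  rw [not_and_or] at hr
  rcases hr with hm3 | hm3
  · refine ⟨-1, ?_⟩
    have h1 : {z : ℕ | x < z ∧ (z : ℝ) ≤ (x : ℝ) + T ∧ lam z ≠ -1} ⊆
        {z : ℕ | x < z ∧ (z : ℝ) ≤ (x : ℝ) + L ∧ Even (ArithmeticFunction.cardFactors z)} := by
      rintro z ⟨z1, z2, z3⟩
      refine ⟨z1, by linarith, ?_⟩
      by_contra hcon
      rw [Nat.not_even_iff_odd] at hcon
      exact z3 hcon.neg_one_pow
    have h2 := Set.ncard_le_ncard h1 (fin_window x _ _)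
    have h3 : (({z : ℕ | x < z ∧ (z : ℝ) ≤ (x : ℝ) + T ∧ lam z ≠ -1}.ncard : ℕ) : ℝ) ≤
        (({z : ℕ | x < z ∧ (z : ℝ) ≤ (x : ℝ) + L ∧
        Even (ArithmeticFunction.cardFactors z)}.ncard : ℕ) : ℝ) := by exact_mod_cast h2
    push Not at hm3
    exact h3.trans (hm3.le.trans htE)
  · refine ⟨1, ?_⟩
    have h1 : {z : ℕ | x < z ∧ (z : ℝ) ≤ (x : ℝ) + T ∧ lam z ≠ 1} ⊆
        {z : ℕ | x < z ∧ (z : ℝ) ≤ (x : ℝ) + L ∧ Odd (ArithmeticFunction.cardFactors z)} := by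
      rintro z ⟨z1, z2, z3⟩
      refine ⟨z1, by linarith, ?_⟩
      by_contra hcon
      rw [Nat.not_odd_iff_even] at hcon
      exact z3 hcon.neg_one_pow
    have h2 := Set.ncard_le_ncard h1 (fin_window x _ _)
    have h3 : (({z : ℕ | x < z ∧ (z : ℝ) ≤ (x : ℝ) + T ∧ lam z ≠ 1}.ncard : ℕ) : ℝ) ≤
        (({z : ℕ | x < z ∧ (z : ℝ) ≤ (x : ℝ) + L ∧
        Odd (ArithmeticFunction.cardFactors z)}.ncard : ℕ) : ℝ) := by exact_mod_cast h2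
    push Not at hm3
    exact h3.trans (hm3.le.trans htE)

/-- one residue class modulo `2` -/
theorem one_class {M R : ℕ} {T E ε : ℝ} {y : ℝ} (hT : T = M / y) (hy : 1 ≤ y) (hε0 : 0 ≤ ε)
    (hε1 : ε ≤ 1) (hE : E = 2 * (M : ℝ) ^ (1 - ε))
    (hM : ∀ B : Finset ℕ, (∀ m ∈ B, M ^ 2 ≤ m ∧ m ≤ 4 * M ^ 2) →
      (∀ m ∈ B, ∀ m' ∈ B, m ≠ m' → (M : ℤ) ≤ |(m : ℤ) - m'|) →
      (∀ m ∈ B, ∃ s : ℤˣ, ({z : ℕ | m < z ∧ (z : ℝ) ≤ (m : ℝ) + T ∧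
        lam z ≠ s}.ncard : ℝ) ≤ E) → #B < R)
    (S : Finset ℕ) (hS1 : ∀ m ∈ S, M < m ∧ m < 2 * M)
    (hS2 : ∀ m ∈ S, ∀ m' ∈ S, m < m' → m + 2 ≤ m')
    (hS3 : ∀ m ∈ S, ∃ x : ℕ, m ^ 2 ≤ x + m ∧ x ≤ m ^ 2 + m ∧
      ∃ L : ℝ, (m : ℝ) / y ≤ L ∧ ¬ Rich x L ((m : ℝ) ^ (1 - ε))) : #S < R := by
  classical
  choose! x hx1 hx2 L hx4 hx3 using hS3
  have hsep : ∀ m ∈ S, ∀ m' ∈ S, m < m' → x m + M ≤ x m' := fun m hm m' hm' hlt =>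
    sep (hS1 m hm).1 (hS2 m hm m' hm' hlt) (hx2 m hm) (hx1 m' hm')
  have hsep' : ∀ m ∈ S, ∀ m' ∈ S, m ≠ m' → (M : ℤ) ≤ |(x m : ℤ) - x m'| := by
    intro m hm m' hm' hne
    rcases lt_or_gt_of_ne hne with h | h
    · have := hsep m hm m' hm' h
      rw [abs_sub_comm]
      exact le_trans (by omega) (le_abs_self _)
    · have := hsep m' hm' m hm h
      exact le_trans (by omega) (le_abs_self _)
  have hinj : Set.InjOn x (S : Set ℕ) := by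
    intro m hm m' hm' heq
    by_contra hne
    have h1 := hsep' m hm m' hm' hne
    rw [heq, sub_self, abs_zero] at h1
    have h2 := (hS1 m hm).1
    have h3 := (hS1 m hm).2
    omega
  rw [← card_image_of_injOn hinj]
  refine hM _ ?_ ?_ ?_
  · intro z hz
    rw [mem_image] at hz
    obtain ⟨m, hm, rfl⟩ := hz
    have h1 := hx1 m hm
    have h2 := hx2 m hm
    obtain ⟨h3, h4⟩ := hS1 m hm
    constructor
    · have h5 : M ^ 2 + M + m ≤ m ^ 2 := by nlinarith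
      omega
    · have h5 : m + 1 ≤ 2 * M := h4
      have h6 : (m + 1) ^ 2 ≤ (2 * M) ^ 2 := Nat.pow_le_pow_left h5 2
      nlinarith
  · intro z hz z' hz' hne
    rw [mem_image] at hz hz'
    obtain ⟨m, hm, rfl⟩ := hz
    obtain ⟨m', hm', rfl⟩ := hz'
    exact hsep' m hm m' hm' (fun h => hne (by rw [h]))
  · intro z hz
    rw [mem_image] at hz
    obtain ⟨m, hm, rfl⟩ := hz
    obtain ⟨h3, h4⟩ := hS1 m hm
    have hMm : (M : ℝ) ≤ (m : ℝ) := by exact_mod_cast h3.le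
    have hm2 : (m : ℝ) ≤ 2 * (M : ℝ) := by exact_mod_cast h4.le
    have hM0 : (0 : ℝ) ≤ (M : ℝ) := Nat.cast_nonneg M
    refine poor_sign (L := L m) (t := (m : ℝ) ^ (1 - ε)) ?_ ?_ (hx3 m hm)
    · rw [hT]
      exact (div_le_div_of_nonneg_right hMm (by linarith)).trans (hx4 m hm)
    · rw [hE]
      calc (m : ℝ) ^ (1 - ε) ≤ (2 * (M : ℝ)) ^ (1 - ε) :=
            Real.rpow_le_rpow (by linarith) hm2 (by linarith)
        _ = (2 : ℝ) ^ (1 - ε) * (M : ℝ) ^ (1 - ε) := Real.mul_rpow (by norm_num) hM0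
        _ ≤ (2 : ℝ) ^ (1 : ℝ) * (M : ℝ) ^ (1 - ε) :=
            mul_le_mul_of_nonneg_right
              (Real.rpow_le_rpow_of_exponent_le (by norm_num) (by linarith))
              (Real.rpow_nonneg hM0 _)
        _ = 2 * (M : ℝ) ^ (1 - ε) := by rw [Real.rpow_one]

/-- the dyadic block -/
theorem dyadic {M R : ℕ} {ε y : ℝ} (hM0 : 1 ≤ M) (hy : 1 ≤ y) (hε0 : 0 ≤ ε)
    (hε1 : ε ≤ 1)
    (hM : ∀ B : Finset ℕ, (∀ m ∈ B, M ^ 2 ≤ m ∧ m ≤ 4 * M ^ 2) →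
      (∀ m ∈ B, ∀ m' ∈ B, m ≠ m' → (M : ℤ) ≤ |(m : ℤ) - m'|) →
      (∀ m ∈ B, ∃ s : ℤˣ, ({z : ℕ | m < z ∧ (z : ℝ) ≤ (m : ℝ) + (M / y : ℝ) ∧
        lam z ≠ s}.ncard : ℝ) ≤ 2 * (M : ℝ) ^ (1 - ε)) → #B < R) :
    {m : ℕ | M < m ∧ m ≤ 2 * M ∧ ∃ x : ℕ, m ^ 2 ≤ x + m ∧ x ≤ m ^ 2 + m ∧
      ∃ L : ℝ, (m : ℝ) / y ≤ L ∧ ¬ Rich x L ((m : ℝ) ^ (1 - ε))}.ncard ≤ 2 * R + 1 := by
  classical
  obtain ⟨P, hP⟩ : ∃ P : ℕ → Prop, P = fun m : ℕ => ∃ x : ℕ, m ^ 2 ≤ x + m ∧ x ≤ m ^ 2 + m ∧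
      ∃ L : ℝ, (m : ℝ) / y ≤ L ∧ ¬ Rich x L ((m : ℝ) ^ (1 - ε)) := ⟨_, rfl⟩
  have hset : {m : ℕ | M < m ∧ m ≤ 2 * M ∧ ∃ x : ℕ, m ^ 2 ≤ x + m ∧ x ≤ m ^ 2 + m ∧
      ∃ L : ℝ, (m : ℝ) / y ≤ L ∧ ¬ Rich x L ((m : ℝ) ^ (1 - ε))}.ncard =
      #((Ioc M (2 * M)).filter P) := by
    rw [← Set.ncard_coe_finset]
    congr 1
    ext m
    rw [mem_coe, mem_filter, mem_Ioc, and_assoc, hP]
    rfl
  rw [hset]
  have hcl : ∀ i : ℕ, #(((Ioc M (2 * M)).filter P).filter fun m => m % 2 = i ∧ m ≠ 2 * M) < R := by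
    intro i
    refine one_class rfl hy hε0 hε1 rfl hM _ ?_ ?_ ?_
    · intro m hm
      rw [mem_filter, mem_filter, mem_Ioc] at hm
      omega
    · intro m hm m' hm' hlt
      rw [mem_filter] at hm hm'
      omega
    · intro m hm
      rw [mem_filter, mem_filter, hP] at hm
      exact hm.1.2
  have hsub : (Ioc M (2 * M)).filter P ⊆
      ((((Ioc M (2 * M)).filter P).filter fun m => m % 2 = 0 ∧ m ≠ 2 * M) ∪
        (((Ioc M (2 * M)).filter P).filter fun m => m % 2 = 1 ∧ m ≠ 2 * M)) ∪ {2 * M} := by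
    intro m hm
    rw [mem_union, mem_union, mem_singleton]
    by_cases h1 : m = 2 * M
    · exact Or.inr h1
    · rcases Nat.mod_two_eq_zero_or_one m with h2 | h2
      · exact Or.inl (Or.inl (mem_filter.2 ⟨hm, h2, h1⟩))
      · exact Or.inl (Or.inr (mem_filter.2 ⟨hm, h2, h1⟩))
  have e1 := card_le_card hsub
  have e2 := (card_union_le (((((Ioc M (2 * M)).filter P).filter
    fun m => m % 2 = 0 ∧ m ≠ 2 * M) ∪
      (((Ioc M (2 * M)).filter P).filter fun m => m % 2 = 1 ∧ m ≠ 2 * M))) {2 * M})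
  have e3 := card_union_le (((Ioc M (2 * M)).filter P).filter fun m => m % 2 = 0 ∧ m ≠ 2 * M)
    (((Ioc M (2 * M)).filter P).filter fun m => m % 2 = 1 ∧ m ≠ 2 * M)
  rw [card_singleton] at e2
  have e6 := hcl 0
  have e7 := hcl 1
  omega

end Pool.Agent.Helper87.QU
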