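import Mathlib
import Pool.Agent.Helper87.QU.Class
import Pool.Agent.Helper21.QS.ChainQ
import Pool.Agent.Helper26.PG.Tot

/-!
# QU: the uniform version
-/

set_option autoImplicit false

open Finset

namespace Pool.Agent.Helper87.QU

open Pool.Agent.Helper87.QG (Rich dcount)

/-- the parameters -/
def ParU (C : ℝ) : Prop := ∀ ε : ℝ, 0 < ε → ε ≤ 1 → ∀ C' : ℝ, ∃ N0 : ℕ,
    ∀ N : ℕ, N0 ≤ N → ∀ y : ℝ, 1 ≤ y → y ^ 10 ≤ (N : ℝ) ^ ε → ∃ (b X W R : ℕ) (H : ℕ → ℕ),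
    16 * (2 ^ (b + 1)) ^ 2 ≤ X ∧ 1 ≤ N ∧ 1 ≤ W ∧
    32 * W * (2 ^ (b + 1)) ^ (b + 2) ≤ X ^ (b + 1) ∧ 1 ≤ R ∧
    2 * (R : ℝ) + 1 ≤ y ^ 10 * Real.exp (C * √(Real.log N)) ∧ 6 ≤ X * W ∧
    40 * (N : ℝ) ^ 2 ≤ W * (N / y) ∧ N ≤ X * W / 2 ∧
    (∀ i < 6, 512 * (2 ^ i * (X * W / 2)) ^ 4 ≤ H i * N ^ 4) ∧
    (2 : ℝ) ^ (b + 2) * (∑ i ∈ range 6, 64 * ((2 ^ i * (X * W / 2) : ℕ) : ℝ) ^ 2 / N *
      (H i : ℝ) ^ 2 * (1 + Real.log (8 * H i * N : ℕ)) / R +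
      C' * (N : ℝ) ^ (ε / 10) * R * (2 * (N : ℝ) ^ (1 - ε))) ≤ W

theorem few_uniform {C : ℝ} (hC : ParU C) (ε : ℝ) (hε : 0 < ε) (hε1 : ε ≤ 1) :
    ∃ N0 : ℕ, ∀ N : ℕ, N0 ≤ N → ∀ y : ℝ, 1 ≤ y → y ^ 10 ≤ (N : ℝ) ^ ε →
    ({m : ℕ | N < m ∧ m ≤ 2 * N ∧ ∃ x : ℕ, m ^ 2 ≤ x + m ∧ x ≤ m ^ 2 + m ∧
      ∃ L : ℝ, (m : ℝ) / y ≤ L ∧ ¬ Rich x L ((m : ℝ) ^ (1 - ε))}.ncard : ℝ) ≤
      y ^ 10 * Real.exp (C * √(Real.log N)) := by
  obtain ⟨C', hC'⟩ := dcount (ε / 10) (by positivity)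
  obtain ⟨N0, hN0⟩ := hC ε hε hε1 C'
  refine ⟨N0, fun N hN y hy hyN => ?_⟩
  obtain ⟨b, X, W, R, H, h1, h2, h3, h4, h5, h6, h7, h8, h9, h10, h11⟩ := hN0 N hN y hy hyN
  refine le_trans ?_ h6
  have hNR : (1 : ℝ) ≤ N := by exact_mod_cast h2
  have key := dyadic (M := N) (R := R) (ε := ε) (y := y) h2 hy hε.le hε1 ?_
  · exact_mod_cast key
  · intro B hB hsep hbad
    refine block_gen (X := X) (W := W) (b := b) (H := H) (c := ε / 10) (C' := C') ?_ hC' h2 h3 h5 h7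
      ?_ h8 h9 h10 h11 B hB hsep hbad
    · intro Hit hH hc
      exact Pool.Agent.Helper21.QS.chain_end_q b X W h1 h3 h4 Hit hH hc
    · exact div_le_self (by linarith) hy

/-- growth of the logarithm -/
theorem log_growth (ε : ℝ) (hε : 0 < ε) : ∃ N0 : ℕ, ∀ N : ℕ, N0 ≤ N →
    (2 + (Nat.log 2 N : ℝ)) ^ 10 ≤ Real.exp (√(Real.log N)) ∧
    Real.exp (√(Real.log N)) ≤ (N : ℝ) ^ ε := by
  obtain ⟨t, ht⟩ : ∃ t : ℝ, t = max (max 1 (1 / ε)) (4 ^ 10 * (Nat.factorial 21 : ℝ)) := ⟨_, rfl⟩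
  have ht1 : 1 ≤ t := by rw [ht]; exact (le_max_left _ _).trans (le_max_left _ _)
  have ht2 : 1 / ε ≤ t := by rw [ht]; exact (le_max_right _ _).trans (le_max_left _ _)
  have ht3 : 4 ^ 10 * (Nat.factorial 21 : ℝ) ≤ t := by rw [ht]; exact le_max_right _ _
  have e1 : ∀ᶠ N : ℕ in Filter.atTop, t ≤ √(Real.log (N : ℝ)) := by
    have h1 : Filter.Tendsto (fun N : ℕ => √(Real.log (N : ℝ))) Filter.atTop Filter.atTop :=
      Real.tendsto_sqrt_atTop.comp (Real.tendsto_log_atTop.comp tendsto_natCast_atTop_atTop)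
    exact h1.eventually_ge_atTop t
  obtain ⟨N1, hN1⟩ := Filter.eventually_atTop.1 e1
  refine ⟨max N1 2, fun N hN => ?_⟩
  have hs := hN1 N ((le_max_left _ _).trans hN)
  have hN2 : 2 ≤ N := (le_max_right _ _).trans hN
  have hNR : (2 : ℝ) ≤ N := by exact_mod_cast hN2
  obtain ⟨s, hsdef⟩ : ∃ s : ℝ, s = √(Real.log (N : ℝ)) := ⟨_, rfl⟩
  rw [← hsdef] at hs ⊢
  have hs1 : 1 ≤ s := ht1.trans hs
  have hlog : Real.log N = s ^ 2 := by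
    rw [hsdef, Real.sq_sqrt (Real.log_nonneg (by linarith))]
  constructor
  · have h1 : (Nat.log 2 N : ℝ) ≤ 2 * s ^ 2 := by
      have h2 : (2 : ℝ) ^ (Nat.log 2 N) ≤ N := by
        exact_mod_cast Nat.pow_log_le_self 2 (by omega)
      have h3 := Real.log_le_log (by positivity) h2
      rw [Real.log_pow, hlog] at h3
      have h4 := Real.log_two_gt_d9
      have h5 : (0 : ℝ) ≤ Nat.log 2 N := Nat.cast_nonneg _
      nlinarith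
    have h2 : 2 + (Nat.log 2 N : ℝ) ≤ 4 * s ^ 2 := by nlinarith
    have h3 : (2 + (Nat.log 2 N : ℝ)) ^ 10 ≤ (4 * s ^ 2) ^ 10 :=
      pow_le_pow_left₀ (by positivity) h2 10
    refine h3.trans ?_
    have h4 := Real.pow_div_factorial_le_exp s (by linarith) 21
    refine le_trans ?_ h4
    rw [le_div_iff₀ (by positivity)]
    calc (4 * s ^ 2) ^ 10 * (Nat.factorial 21 : ℝ) = s ^ 20 * (4 ^ 10 * (Nat.factorial 21 : ℝ)) := by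
          ring
      _ ≤ s ^ 20 * s := mul_le_mul_of_nonneg_left (ht3.trans hs) (by positivity)
      _ = s ^ 21 := by ring
  · rw [Real.rpow_def_of_pos (by linarith), hlog]
    refine Real.exp_le_exp.2 ?_
    have h1 : 1 ≤ s * ε := by
      have h2 := ht2.trans hs
      rw [div_le_iff₀ hε] at h2
      exact h2
    nlinarith

/-- the windows `(m ^ 2, m ^ 2 + φ(m)]` -/
theorem few_phi {C : ℝ} (hC : ParU C) (ε : ℝ) (hε : 0 < ε) (hε1 : ε ≤ 1) :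
    ∃ N0 : ℕ, ∀ N : ℕ, N0 ≤ N →
    ({m : ℕ | N < m ∧ m ≤ 2 * N ∧
      ¬ Rich (m ^ 2) (Nat.totient m) ((m : ℝ) ^ (1 - ε))}.ncard : ℝ) ≤
      Real.exp ((C + 1) * √(Real.log N)) := by
  obtain ⟨N0, hN0⟩ := few_uniform hC ε hε hε1
  obtain ⟨N1, hN1⟩ := log_growth ε hε
  refine ⟨max (max N0 N1) 1, fun N hN => ?_⟩
  have hNN0 : N0 ≤ N := (le_max_left _ _).trans ((le_max_left _ _).trans hN)
  have hNN1 : N1 ≤ N := (le_max_right _ _).trans ((le_max_left _ _).trans hN)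
  have hN1' : 1 ≤ N := (le_max_right _ _).trans hN
  obtain ⟨g1, g2⟩ := hN1 N hNN1
  obtain ⟨y, hy⟩ : ∃ y : ℝ, y = 2 + (Nat.log 2 N : ℝ) := ⟨_, rfl⟩
  rw [← hy] at g1
  have hy1 : 1 ≤ y := by
    rw [hy]
    have : (0 : ℝ) ≤ Nat.log 2 N := Nat.cast_nonneg _
    linarith
  have h1 := hN0 N hNN0 y hy1 (g1.trans g2)
  have h2 : ({m : ℕ | N < m ∧ m ≤ 2 * N ∧
      ¬ Rich (m ^ 2) (Nat.totient m) ((m : ℝ) ^ (1 - ε))}.ncard : ℝ) ≤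
      ({m : ℕ | N < m ∧ m ≤ 2 * N ∧ ∃ x : ℕ, m ^ 2 ≤ x + m ∧ x ≤ m ^ 2 + m ∧
      ∃ L : ℝ, (m : ℝ) / y ≤ L ∧ ¬ Rich x L ((m : ℝ) ^ (1 - ε))}.ncard : ℝ) := by
    have h3 : {m : ℕ | N < m ∧ m ≤ 2 * N ∧
        ¬ Rich (m ^ 2) (Nat.totient m) ((m : ℝ) ^ (1 - ε))} ⊆
        {m : ℕ | N < m ∧ m ≤ 2 * N ∧ ∃ x : ℕ, m ^ 2 ≤ x + m ∧ x ≤ m ^ 2 + m ∧
        ∃ L : ℝ, (m : ℝ) / y ≤ L ∧ ¬ Rich x L ((m : ℝ) ^ (1 - ε))} := by
      rintro m ⟨a1, a2, a3⟩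
      refine ⟨a1, a2, m ^ 2, by omega, by omega, Nat.totient m, ?_, a3⟩
      have hm0 : 0 < m := by omega
      have b1 := Pool.Agent.Helper26.PG.tot_log m hm0
      have b2 : Nat.log 2 m ≤ Nat.log 2 N + 1 := by
        have b3 : Nat.log 2 m ≤ Nat.log 2 (N * 2) := Nat.log_mono_right (by omega)
        rwa [Nat.log_mul_base (by norm_num) (by omega)] at b3
      have b4 : (Nat.log 2 m : ℝ) ≤ (Nat.log 2 N : ℝ) + 1 := by exact_mod_cast b2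
      rw [div_le_iff₀ (by linarith)]
      refine b1.trans (mul_le_mul_of_nonneg_left ?_ (Nat.cast_nonneg _))
      rw [hy]
      linarith
    have h4 : {m : ℕ | N < m ∧ m ≤ 2 * N ∧ ∃ x : ℕ, m ^ 2 ≤ x + m ∧ x ≤ m ^ 2 + m ∧
        ∃ L : ℝ, (m : ℝ) / y ≤ L ∧ ¬ Rich x L ((m : ℝ) ^ (1 - ε))}.Finite :=
      (Set.finite_Iic (2 * N)).subset fun m hm => hm.2.1
    exact_mod_cast Set.ncard_le_ncard h3 h4
  refine h2.trans (h1.trans ?_)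
  calc y ^ 10 * Real.exp (C * √(Real.log N))
      ≤ Real.exp (√(Real.log N)) * Real.exp (C * √(Real.log N)) :=
        mul_le_mul_of_nonneg_right g1 (Real.exp_pos _).le
    _ = Real.exp ((C + 1) * √(Real.log N)) := by
        rw [← Real.exp_add]
        congr 1
        ring

end Pool.Agent.Helper87.QU
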